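import Pool.Agent.Work.MP_65e34f_helper18.RDC

/-!
# MP_65e34f_al : block RDN
-/

namespace Pool.FG.helper18

open Matrix

/-- the relators of a non-oriented group -/
lemma relN_iff {G : Type} [Group G] {g d s : ℕ} (m : Fin d → ℕ) (f : GenN g d s → G) :
    (∀ r ∈ relN g d s m, FreeGroup.lift f r = 1) ↔
      (∀ i, f (.x i) ^ m i = 1) ∧
      (List.ofFn fun i : Fin d => f (.x i)).prod * (List.ofFn fun j : Fin s => f (.y j)).prod *
        (List.ofFn fun i : Fin g => f (.a i) ^ 2).prod = 1 := by
  have hl : FreeGroup.lift f ((List.ofFn fun i : Fin d => FreeGroup.of (GenN.x (g := g) (s := s) i)).prod *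
        (List.ofFn fun j : Fin s => FreeGroup.of (GenN.y j)).prod *
        (List.ofFn fun i : Fin g => (FreeGroup.of (GenN.a i)) ^ 2).prod) =
      (List.ofFn fun i : Fin d => f (.x i)).prod * (List.ofFn fun j : Fin s => f (.y j)).prod *
        (List.ofFn fun i : Fin g => f (.a i) ^ 2).prod := by
    rw [map_mul, map_mul, map_list_prod, map_list_prod, map_list_prod, List.map_ofFn, List.map_ofFn,
      List.map_ofFn]
    simp [Function.comp_def]
  constructor
  · intro h
    refine ⟨fun i => ?_, ?_⟩
    · have := h _ (Or.inl ⟨i, rfl⟩)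
      simpa using this
    · rw [← hl]
      exact h _ (Or.inr rfl)
  · rintro ⟨h1, h2⟩ r (⟨i, rfl⟩ | rfl)
    · simpa using h1 i
    · rw [hl]; exact h2

/-- genus one, no `y` -/
lemma PPN_one {d : ℕ} (m : Fin d → ℕ) (G : Type) [Group G] [Finite G] :
    PP (FuchsN 1 d 0 m) G = 1 - ((BG .sq m G).ncard : ℝ) / ((TG .sq m G).ncard : ℝ) := by
  apply PP_eq (relN 1 d 0 m) m .sq
    (toF := fun t v => match v with
      | .a _ => t.2 (0 : Fin 1)
      | .x i => t.1 i
      | .y j => j.elim0)
    (ofF := fun f => (fun i => f (.x i), (![f (.a 0)] : Fin 1 → G)))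
  · rintro t ⟨h1, h2⟩
    rw [relN_iff]
    refine ⟨h1, ?_⟩
    have h2' : (List.ofFn t.1).prod * (t.2 (0 : Fin 1)) ^ 2 = 1 := h2
    simpa using h2'
  · intro f hf
    rw [relN_iff] at hf
    refine ⟨hf.1, ?_⟩
    show (List.ofFn fun i : Fin d => f (.x i)).prod * f (.a 0) ^ 2 = 1
    simpa using hf.2
  · rintro t _
    refine Prod.ext rfl (funext fun j => ?_)
    change Fin 1 at j
    fin_cases j; rfl
  · intro f _
    funext v
    rcases v with i | i | i
    · rw [Subsingleton.elim i 0]; rfl
    · rfl
    · exact i.elim0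
  · rintro t _
    apply le_antisymm
    · rw [Subgroup.closure_le]
      rintro _ ⟨v, rfl⟩
      rcases v with i | i | i
      · exact Subgroup.subset_closure (Or.inr ⟨(0 : Fin 1), rfl⟩)
      · exact Subgroup.subset_closure (Or.inl ⟨i, rfl⟩)
      · exact i.elim0
    · rw [Subgroup.closure_le]
      rintro _ (⟨i, rfl⟩ | ⟨j, rfl⟩)
      · exact Subgroup.subset_closure ⟨.x i, rfl⟩
      · change Fin 1 at j
        fin_cases j
        exact Subgroup.subset_closure ⟨.a 0, rfl⟩

/-- genus two, no `y` -/
lemma PPN_two {d : ℕ} (m : Fin d → ℕ) (G : Type) [Group G] [Finite G] :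
    PP (FuchsN 2 d 0 m) G = 1 - ((BG .sq2 m G).ncard : ℝ) / ((TG .sq2 m G).ncard : ℝ) := by
  apply PP_eq (relN 2 d 0 m) m .sq2
    (toF := fun t v => match v with
      | .a i => (show Fin 2 → G from t.2) i
      | .x i => t.1 i
      | .y j => j.elim0)
    (ofF := fun f => (fun i => f (.x i), (fun i => f (.a i) : Fin 2 → G)))
  · rintro t ⟨h1, h2⟩
    rw [relN_iff]
    refine ⟨h1, ?_⟩
    have h2' : (List.ofFn t.1).prod * ((t.2 (0 : Fin 2)) ^ 2 * (t.2 (1 : Fin 2)) ^ 2) = 1 := h2
    simpa [List.ofFn_succ] using h2'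
  · intro f hf
    rw [relN_iff] at hf
    refine ⟨hf.1, ?_⟩
    show (List.ofFn fun i : Fin d => f (.x i)).prod * (f (.a 0) ^ 2 * f (.a 1) ^ 2) = 1
    simpa [List.ofFn_succ] using hf.2
  · rintro t _
    exact Prod.ext rfl rfl
  · intro f _
    funext v
    rcases v with i | i | i
    · rfl
    · rfl
    · exact i.elim0
  · rintro t _
    apply le_antisymm
    · rw [Subgroup.closure_le]
      rintro _ ⟨v, rfl⟩
      rcases v with i | i | i
      · exact Subgroup.subset_closure (Or.inr ⟨i, rfl⟩)
      · exact Subgroup.subset_closure (Or.inl ⟨i, rfl⟩)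
      · exact i.elim0
    · rw [Subgroup.closure_le]
      rintro _ (⟨i, rfl⟩ | ⟨j, rfl⟩)
      · exact Subgroup.subset_closure ⟨.x i, rfl⟩
      · exact Subgroup.subset_closure ⟨.a j, rfl⟩

/-- at least one `y` -/
lemma PPN_free {g d s n : ℕ} (e : Fin n ≃ Fin g ⊕ Fin s) (m : Fin d → ℕ) (G : Type)
    [Group G] [Finite G] :
    PP (FuchsN g d (s + 1) m) G =
      1 - ((BG (.free n) m G).ncard : ℝ) / ((TG (.free n) m G).ncard : ℝ) := by
  have key : ∀ (X A : G) (u : Fin s → G) (z : G),
      X * (List.ofFn (Fin.snoc (α := fun _ => G) u z)).prod * A = 1 ↔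
        z = (X * (List.ofFn u).prod)⁻¹ * A⁻¹ := by
    intro X A u z
    rw [List.ofFn_succ', List.concat_eq_append, List.prod_append]
    simp only [Fin.snoc_castSucc, Fin.snoc_last, List.prod_cons, List.prod_nil, mul_one]
    constructor
    · intro h
      have : z = (X * (List.ofFn u).prod)⁻¹ * (X * ((List.ofFn u).prod * z) * A) * A⁻¹ := by group
      rw [this, h, mul_one]
    · rintro rfl
      group
  apply PP_eq (relN g d (s + 1) m) m (.free n)
    (toF := fun t v => match v with
      | .a i => t.2 (e.symm (Sum.inl i))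
      | .x i => t.1 i
      | .y j => Fin.snoc (α := fun _ => G) (fun i => t.2 (e.symm (Sum.inr i)))
          (((List.ofFn t.1).prod * (List.ofFn fun i => t.2 (e.symm (Sum.inr i))).prod)⁻¹ *
            ((List.ofFn fun i : Fin g => (t.2 (e.symm (Sum.inl i))) ^ 2).prod)⁻¹) j)
    (ofF := fun f => (fun i => f (.x i), fun j : Fin n => match e j with
      | Sum.inl i => f (.a i)
      | Sum.inr i => f (.y i.castSucc)))
  · rintro t ⟨h1, h2⟩
    rw [relN_iff]
    refine ⟨h1, ?_⟩
    exact (key _ _ _ _).mpr rfl
  · intro f hf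
    rw [relN_iff] at hf
    exact ⟨hf.1, trivial⟩
  · rintro t _
    refine Prod.ext rfl (funext fun j => ?_)
    change Fin n at j
    obtain ⟨v, rfl⟩ := e.symm.surjective j
    simp only [Equiv.apply_symm_apply]
    rcases v with i | i
    · rfl
    · simp only [Fin.snoc_castSucc]
  · intro f hf
    rw [relN_iff] at hf
    have hy : (fun j : Fin (s + 1) => f (.y j)) =
        Fin.snoc (α := fun _ => G) (fun i : Fin s => f (.y i.castSucc)) (f (.y (Fin.last s))) := by
      funext j
      refine Fin.lastCases ?_ (fun i => ?_) j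
      · simp
      · simp
    have h2 := hf.2
    rw [hy, key] at h2
    funext v
    rcases v with i | i | i
    · simp
    · rfl
    · simp only [Equiv.apply_symm_apply]
      rw [← h2]
      exact (congrFun hy i).symm
  · rintro t _
    apply le_antisymm
    · rw [Subgroup.closure_le]
      have hx : ∀ i, t.1 i ∈ Subgroup.closure (Set.range t.1 ∪ Set.range t.2) := fun i =>
        Subgroup.subset_closure (Or.inl ⟨i, rfl⟩)
      have hw : ∀ i, t.2 i ∈ Subgroup.closure (Set.range t.1 ∪ Set.range t.2) := fun i =>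
        Subgroup.subset_closure (Or.inr ⟨i, rfl⟩)
      rintro _ ⟨v, rfl⟩
      rcases v with i | i | i
      · exact hw _
      · exact hx _
      · refine Fin.lastCases ?_ (fun i => ?_) i
        · simp only [Fin.snoc_last]
          refine Subgroup.mul_mem _ (Subgroup.inv_mem _ (Subgroup.mul_mem _ ?_ ?_))
            (Subgroup.inv_mem _ ?_)
          · apply Subgroup.list_prod_mem
            intro z hz
            rw [List.mem_ofFn] at hz
            obtain ⟨i, rfl⟩ := hz
            exact hx i
          · apply Subgroup.list_prod_mem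
            intro z hz
            rw [List.mem_ofFn] at hz
            obtain ⟨i, rfl⟩ := hz
            exact hw _
          · apply Subgroup.list_prod_mem
            intro z hz
            rw [List.mem_ofFn] at hz
            obtain ⟨i, rfl⟩ := hz
            exact Subgroup.pow_mem _ (hw _) 2
        · simp only [Fin.snoc_castSucc]
          exact hw _
    · rw [Subgroup.closure_le]
      rintro _ (⟨i, rfl⟩ | ⟨j, rfl⟩)
      · exact Subgroup.subset_closure ⟨.x i, rfl⟩
      · change Fin n at j
        obtain ⟨v, rfl⟩ := e.symm.surjective j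
        rcases v with i | i
        · exact Subgroup.subset_closure ⟨.a i, rfl⟩
        · exact Subgroup.subset_closure ⟨.y i.castSucc, by simp only [Fin.snoc_castSucc]⟩

/-- block RDN -/
theorem stmt_RDN : Stmt_RDN := by
  intro g d s m K _ _ hg1 hg2
  rw [ratio_eq]
  rcases s with _ | s
  · interval_cases g
    · exact PPN_one m _
    · exact PPN_two m _
  · have hcard : Fintype.card (Fin (g + s)) = Fintype.card (Fin g ⊕ Fin s) := by
      simp
    exact PPN_free (Fintype.equivOfCardEq hcard) m _

end Pool.FG.helper18
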