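import Pool.Agent.Work.MP_65e34f.Basic

/-!
# MP_65e34f_al : common part of the reductions RDO, RDN
-/

namespace Pool.FG.helper18

open Matrix

/-- the relation in a group `G` -/
def relG {G : Type} [Group G] : (W : Wd) → List G → (Fin W.n → G) → Prop
  | .free _, _, _ => True
  | .zero, xs, _ => xs.prod = 1
  | .comm, xs, w => xs.prod * cm (w (0 : Fin 2)) (w (1 : Fin 2)) = 1
  | .sq, xs, w => xs.prod * (w (0 : Fin 1)) ^ 2 = 1
  | .sq2, xs, w => xs.prod * ((w (0 : Fin 2)) ^ 2 * (w (1 : Fin 2)) ^ 2) = 1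

/-- tuples in `G` satisfying the relations -/
def TG (W : Wd) {d : ℕ} (m : Fin d → ℕ) (G : Type) [Group G] : Set ((Fin d → G) × (Fin W.n → G)) :=
  {t | (∀ i, t.1 i ^ m i = 1) ∧ relG W (List.ofFn t.1) t.2}

/-- the non-generating tuples in `G` -/
def BG (W : Wd) {d : ℕ} (m : Fin d → ℕ) (G : Type) [Group G] : Set ((Fin d → G) × (Fin W.n → G)) :=
  {t | t ∈ TG W m G ∧ Subgroup.closure (Set.range t.1 ∪ Set.range t.2) ≠ ⊤}

/-- Homomorphisms of a presented group in terms of tuples. -/
lemma PP_eq {V : Type} (R : Set (FreeGroup V)) {G : Type} [Group G] [Finite G] {d : ℕ}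
    (m : Fin d → ℕ) (W : Wd)
    (toF : (Fin d → G) × (Fin W.n → G) → (V → G))
    (ofF : (V → G) → (Fin d → G) × (Fin W.n → G))
    (h1 : ∀ t ∈ TG W m G, ∀ r ∈ R, FreeGroup.lift (toF t) r = 1)
    (h2 : ∀ f : V → G, (∀ r ∈ R, FreeGroup.lift f r = 1) → ofF f ∈ TG W m G)
    (h3 : ∀ t ∈ TG W m G, ofF (toF t) = t)
    (h4 : ∀ f : V → G, (∀ r ∈ R, FreeGroup.lift f r = 1) → toF (ofF f) = f)
    (h5 : ∀ t ∈ TG W m G, Subgroup.closure (Set.range (toF t)) =
      Subgroup.closure (Set.range t.1 ∪ Set.range t.2)) :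
    PP (PresentedGroup R) G = 1 - ((BG W m G).ncard : ℝ) / ((TG W m G).ncard : ℝ) := by
  classical
  -- the bijection
  let e : (PresentedGroup R →* G) ≃ (TG W m G) :=
    { toFun := fun φ => ⟨ofF (fun v => φ (PresentedGroup.of v)), by
        apply h2
        intro r hr
        have : FreeGroup.lift (fun v => φ (PresentedGroup.of v)) r = φ (PresentedGroup.mk R r) := by
          have h : (FreeGroup.lift (fun v => φ (PresentedGroup.of v)) : FreeGroup V →* G) =
              φ.comp (PresentedGroup.mk R) := by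
            ext v
            simp [PresentedGroup.of]
          rw [h]; rfl
        rw [this, PresentedGroup.one_of_mem hr, map_one]⟩
      invFun := fun t => PresentedGroup.toGroup (h1 t.1 t.2)
      left_inv := by
        intro φ
        apply PresentedGroup.ext
        intro v
        rw [PresentedGroup.toGroup.of]
        have := h4 (fun v => φ (PresentedGroup.of v)) (by
          intro r hr
          have : FreeGroup.lift (fun v => φ (PresentedGroup.of v)) r = φ (PresentedGroup.mk R r) := by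
            have h : (FreeGroup.lift (fun v => φ (PresentedGroup.of v)) : FreeGroup V →* G) =
                φ.comp (PresentedGroup.mk R) := by
              ext v
              simp [PresentedGroup.of]
            rw [h]; rfl
          rw [this, PresentedGroup.one_of_mem hr, map_one])
        exact congrFun this v
      right_inv := by
        rintro ⟨t, ht⟩
        apply Subtype.ext
        show ofF (fun v => PresentedGroup.toGroup (h1 t ht) (PresentedGroup.of v)) = t
        simp only [PresentedGroup.toGroup.of]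
        exact h3 t ht }
  have hsur : ∀ φ : PresentedGroup R →* G, Function.Surjective φ ↔
      Subgroup.closure (Set.range (e φ).1.1 ∪ Set.range (e φ).1.2) = ⊤ := by
    intro φ
    rw [← h5 _ (e φ).2, ← MonoidHom.range_eq_top]
    have h6 : toF (e φ).1 = fun v => φ (PresentedGroup.of v) := by
      have : e.symm (e φ) = φ := e.symm_apply_apply φ
      funext v
      conv_rhs => rw [← this]
      show _ = PresentedGroup.toGroup (h1 (e φ).1 (e φ).2) (PresentedGroup.of v)
      rw [PresentedGroup.toGroup.of]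
    rw [h6]
    have h7 : φ.range = Subgroup.closure (Set.range fun v => φ (PresentedGroup.of v)) := by
      rw [MonoidHom.range_eq_map, ← PresentedGroup.closure_range_of R, MonoidHom.map_closure,
        ← Set.range_comp]
      rfl
    rw [h7]
  have hcard : Nat.card (PresentedGroup R →* G) = (TG W m G).ncard := by
    rw [Nat.card_congr e]; rfl
  have hfin : (TG W m G).Finite := Set.toFinite _
  have hsub : BG W m G ⊆ TG W m G := fun t h => h.1
  have hcs : Nat.card {φ : PresentedGroup R →* G // Function.Surjective φ} =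
      (TG W m G \ BG W m G).ncard := by
    rw [← Nat.card_coe_set_eq]
    apply Nat.card_congr
    exact
      { toFun := fun φ => ⟨(e φ.1).1, (e φ.1).2, fun h => h.2 ((hsur φ.1).mp φ.2)⟩
        invFun := fun t => ⟨e.symm ⟨t.1, t.2.1⟩, by
          rw [hsur, e.apply_symm_apply]
          by_contra h
          exact t.2.2 ⟨t.2.1, h⟩⟩
        left_inv := by
          rintro ⟨φ, hφ⟩
          apply Subtype.ext
          simp
        right_inv := by
          rintro ⟨t, ht⟩
          apply Subtype.ext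
          simp }
  have hpos : 0 < (TG W m G).ncard := by
    rw [← hcard]
    have : Finite (PresentedGroup R →* G) := Finite.of_equiv _ e.symm
    exact Nat.card_pos
  rw [PP, hcard, hcs, Set.ncard_sdiff hsub (hfin.subset hsub), Nat.cast_sub (Set.ncard_le_ncard hsub hfin)]
  have : ((TG W m G).ncard : ℝ) ≠ 0 := by exact_mod_cast hpos.ne'
  field_simp

section
variable {K : Type} [Field K]

/-- the projection `SL_2(K) → PSL_2(K)` -/
def pr : SL K →* PSL K := QuotientGroup.mk' _

lemma pr_surj : Function.Surjective (pr : SL K →* PSL K) := QuotientGroup.mk'_surjective _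

lemma pr_eq_one (x : SL K) : pr x = 1 ↔ Sc x := by
  have h : pr x = 1 ↔ x ∈ Subgroup.center (SL K) := by
    unfold pr
    rw [QuotientGroup.mk'_apply, QuotientGroup.eq_one_iff]
  rw [h]
  constructor
  · intro hx
    rw [Matrix.SpecialLinearGroup.mem_center_iff] at hx
    obtain ⟨r, hr, hx⟩ := hx
    rw [Sc_iff, ← hx]
    simp
  · rintro (rfl | rfl)
    · exact Subgroup.one_mem _
    · rw [Subgroup.mem_center_iff]
      intro g
      simp

lemma card_preimage {A B : Type} [Group A] [Group B] (f : A →* B) (hf : Function.Surjective f)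
    (S : Set B) : (f ⁻¹' S).ncard = S.ncard * Nat.card f.ker := by
  rw [← Nat.card_coe_set_eq, ← Nat.card_coe_set_eq, ← Nat.card_prod]
  apply Nat.card_congr
  have e1 : (f ⁻¹' S) ≃ Σ b : S, (f ⁻¹' {b.1}) :=
    { toFun := fun a => ⟨⟨f a.1, a.2⟩, ⟨a.1, rfl⟩⟩
      invFun := fun p => ⟨p.2.1, by
        have h := p.2.2
        rw [Set.mem_preimage, Set.mem_singleton_iff] at h
        rw [Set.mem_preimage, h]
        exact p.1.2⟩
      left_inv := by
        rintro ⟨a, ha⟩
        rfl
      right_inv := by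
        rintro ⟨⟨b, hb⟩, ⟨a, ha⟩⟩
        rw [Set.mem_preimage, Set.mem_singleton_iff] at ha
        subst ha
        rfl }
  exact e1.trans ((Equiv.sigmaCongrRight fun b : S => MonoidHom.fiberEquivKerOfSurjective hf b.1).trans
    (Equiv.sigmaEquivProd _ _))

/-- the projection of tuples -/
def prt (d n : ℕ) : ((Fin d → SL K) × (Fin n → SL K)) →* ((Fin d → PSL K) × (Fin n → PSL K)) :=
  MonoidHom.prodMap (MonoidHom.compLeft pr (Fin d)) (MonoidHom.compLeft pr (Fin n))

lemma prt_fst (d n : ℕ) (t : (Fin d → SL K) × (Fin n → SL K)) (i : Fin d) :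
    (prt d n t).1 i = pr (t.1 i) := rfl

lemma prt_snd (d n : ℕ) (t : (Fin d → SL K) × (Fin n → SL K)) (i : Fin n) :
    (prt d n t).2 i = pr (t.2 i) := rfl

lemma prt_surj (d n : ℕ) : Function.Surjective (prt (K := K) d n) := by
  rintro ⟨x, w⟩
  choose x' hx' using fun i => pr_surj (x i)
  choose w' hw' using fun i => pr_surj (w i)
  exact ⟨(x', w'), Prod.ext (funext hx') (funext hw')⟩

/-- list version of tuples -/
def li (d n : ℕ) (t : (Fin d → SL K) × (Fin n → SL K)) : List (SL K) × (Fin n → SL K) :=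
  (List.ofFn t.1, t.2)

lemma li_inj (d n : ℕ) : Function.Injective (li (K := K) d n) := by
  rintro ⟨x, w⟩ ⟨x', w'⟩ h
  have h1 : List.ofFn x = List.ofFn x' := congrArg Prod.fst h
  have h2 : w = w' := congrArg Prod.snd h
  rw [List.ofFn_injective h1, h2]

lemma mem_Xs_ofFn {d : ℕ} (m : Fin d → ℕ) (xs : List (SL K)) :
    xs ∈ Xs (List.ofFn m) (⊤ : Subgroup (SL K)) ↔
      ∃ x : Fin d → SL K, List.ofFn x = xs ∧ ∀ i, Sc (x i ^ m i) := by
  unfold Xs
  rw [Set.mem_ofPred_eq, List.forall₂_iff_get]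
  constructor
  · rintro ⟨h1, h2⟩
    rw [List.length_ofFn] at h1
    subst h1
    refine ⟨fun i => xs.get i, List.ofFn_get xs, ?_⟩
    intro i
    have := h2 i (by rw [List.length_ofFn]; exact i.2) i.2
    simpa using this
  · rintro ⟨x, rfl, h⟩
    refine ⟨by simp, ?_⟩
    intro i h1 h2
    simpa using h ⟨i, by simpa using h1⟩

lemma pr_prod {d : ℕ} (x : Fin d → SL K) :
    (List.ofFn fun i => pr (x i)).prod = pr (List.ofFn x).prod := by
  rw [map_list_prod, List.map_ofFn]
  rfl

lemma rel_iff (W : Wd) {d : ℕ} (x : Fin d → SL K) (w : Fin W.n → SL K) :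
    W.rel (List.ofFn x) w ↔ relG W (List.ofFn fun i => pr (x i)) (fun j => pr (w j)) := by
  cases W with
  | free r => exact Iff.rfl
  | zero =>
    show Sc _ ↔ _ = 1
    rw [pr_prod, pr_eq_one]
  | comm =>
    show Sc _ ↔ _ * cm (pr _) (pr _) = 1
    rw [pr_prod]
    simp only [cm]
    rw [← map_inv, ← map_inv, ← map_mul, ← map_mul, ← map_mul, ← map_mul, pr_eq_one]
  | sq =>
    show Sc _ ↔ _ * (pr _) ^ 2 = 1
    rw [pr_prod, ← map_pow, ← map_mul, pr_eq_one]
  | sq2 =>
    show Sc _ ↔ _ * ((pr _) ^ 2 * (pr _) ^ 2) = 1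
    rw [pr_prod, ← map_pow, ← map_pow, ← map_mul, ← map_mul, pr_eq_one]

lemma gn_iff {d n : ℕ} (t : (Fin d → SL K) × (Fin n → SL K)) :
    gn (li d n t) = ⊤ ↔ Subgroup.closure (Set.range (prt d n t).1 ∪ Set.range (prt d n t).2) = ⊤ := by
  have hker : (pr : SL K →* PSL K).ker ≤ gn (li d n t) := by
    intro x hx
    rw [MonoidHom.mem_ker, pr_eq_one] at hx
    exact sc_mem (neg_one_mem_gn _) hx
  have hmap : Subgroup.map pr (gn (li d n t)) =
      Subgroup.closure (Set.range (prt d n t).1 ∪ Set.range (prt d n t).2) := by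
    unfold gn
    rw [MonoidHom.map_closure]
    apply le_antisymm
    · rw [Subgroup.closure_le]
      rintro _ ⟨x, (hx | ⟨j, rfl⟩) | hx, rfl⟩
      · have hx' : x ∈ List.ofFn t.1 := hx
        rw [List.mem_ofFn] at hx'
        obtain ⟨i, rfl⟩ := hx'
        exact Subgroup.subset_closure (Or.inl ⟨i, rfl⟩)
      · exact Subgroup.subset_closure (Or.inr ⟨j, rfl⟩)
      · rw [Set.mem_singleton_iff] at hx
        subst hx
        rw [(pr_eq_one _).mpr Sc_neg_one]
        exact Subgroup.one_mem _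
    · rw [Subgroup.closure_le]
      rintro _ (⟨i, rfl⟩ | ⟨j, rfl⟩)
      · exact Subgroup.subset_closure ⟨t.1 i, Or.inl (Or.inl (by
          show t.1 i ∈ List.ofFn t.1
          rw [List.mem_ofFn]; exact ⟨i, rfl⟩)), rfl⟩
      · exact Subgroup.subset_closure ⟨t.2 j, Or.inl (Or.inr ⟨j, rfl⟩), rfl⟩
  rw [← hmap]
  constructor
  · intro h
    rw [h, ← MonoidHom.range_eq_map, MonoidHom.range_eq_top]
    exact pr_surj
  · intro h
    have := Subgroup.comap_map_eq_self hker
    rw [← this, h, Subgroup.comap_top]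

lemma mem_TG_iff (W : Wd) {d : ℕ} (m : Fin d → ℕ) (t : (Fin d → SL K) × (Fin W.n → SL K)) :
    prt d W.n t ∈ TG W m (PSL K) ↔ li d W.n t ∈ Tup W (List.ofFn m) (⊤ : Subgroup (SL K)) := by
  constructor
  · rintro ⟨h1, h2⟩
    refine ⟨(mem_Xs_ofFn m _).mpr ⟨t.1, rfl, fun i => ?_⟩, fun j => trivial, ?_⟩
    · have := h1 i
      rw [prt_fst, ← map_pow, pr_eq_one] at this
      exact this
    · exact (rel_iff W t.1 t.2).mpr h2
  · rintro ⟨h1, _, h2⟩
    obtain ⟨x, hx, h1⟩ := (mem_Xs_ofFn m _).mp h1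
    have : x = t.1 := List.ofFn_injective hx
    subst this
    refine ⟨fun i => ?_, (rel_iff W t.1 t.2).mp h2⟩
    rw [prt_fst, ← map_pow, pr_eq_one]
    exact h1 i

lemma Tup_eq (W : Wd) {d : ℕ} (m : Fin d → ℕ) :
    Tup W (List.ofFn m) (⊤ : Subgroup (SL K)) = li d W.n '' (prt d W.n ⁻¹' TG W m (PSL K)) := by
  ext t
  constructor
  · intro ht
    obtain ⟨x, hx, h1⟩ := (mem_Xs_ofFn m _).mp ht.1
    have hli : li d W.n (x, t.2) = t := Prod.ext hx rfl
    refine ⟨(x, t.2), ?_, hli⟩
    rw [Set.mem_preimage, mem_TG_iff, hli]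
    exact ht
  · rintro ⟨t', ht', rfl⟩
    exact (mem_TG_iff W m t').mp ht'

lemma Bad_eq (W : Wd) {d : ℕ} (m : Fin d → ℕ) :
    Bad W (List.ofFn m) K = li d W.n '' (prt d W.n ⁻¹' BG W m (PSL K)) := by
  ext t
  constructor
  · rintro ⟨ht, hg⟩
    obtain ⟨x, hx, h1⟩ := (mem_Xs_ofFn m _).mp ht.1
    have hli : li d W.n (x, t.2) = t := Prod.ext hx rfl
    refine ⟨(x, t.2), ⟨?_, ?_⟩, hli⟩
    · rw [mem_TG_iff, hli]
      exact ht
    · intro h
      rw [← gn_iff, hli] at h
      exact hg h
  · rintro ⟨t', ht', rfl⟩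
    refine ⟨(mem_TG_iff W m t').mp ht'.1, ?_⟩
    intro h
    exact ht'.2 ((gn_iff t').mp h)

lemma ratio_eq [Finite K] (W : Wd) {d : ℕ} (m : Fin d → ℕ) :
    ((Bad W (List.ofFn m) K).ncard : ℝ) / ((Tup W (List.ofFn m) (⊤ : Subgroup (SL K))).ncard : ℝ) =
      ((BG W m (PSL K)).ncard : ℝ) / ((TG W m (PSL K)).ncard : ℝ) := by
  rw [Tup_eq, Bad_eq, Set.ncard_image_of_injective _ (li_inj _ _),
    Set.ncard_image_of_injective _ (li_inj _ _), card_preimage _ (prt_surj _ _),
    card_preimage _ (prt_surj _ _)]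
  have : (Nat.card (prt (K := K) d W.n).ker : ℝ) ≠ 0 := by
    have : 0 < Nat.card (prt (K := K) d W.n).ker := Nat.card_pos
    exact_mod_cast this.ne'
  push_cast
  rw [mul_div_mul_right _ _ this]

end

end Pool.FG.helper18
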